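import Pool.Agent.TH464.PO.Two

set_option autoImplicit false

/-!
# The Poisson law for the almost prime values of `m ^ 3 + k`

Let `m` be good if `m ^ 3 + k` has at most `3 r` prime factors, all larger than `X ^ (1 / r)`. Let
`V` be the product of `1 - ρ(p) / p` over the primes `p ≤ X ^ (1 / r)`. Given `θ > 0`, a size `x`
and an accuracy `ε`, for all `r ≥ r0 (θ, x, ε)`, all large `X`, ALL `Y` with `X ^ θ ≤ Y ≤ X` and
ALL window lengths `T` with `T V ≤ x` the number of the good `m` in `(n, n + T]`, for `n` in `(X,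
X + Y]`, has the Poisson distribution of mean `T V`, up to `ε` in total variation.
-/

namespace Pool.Agent.Results.MP_4d57ea_nt.PoissonLaw

open Finset Filter

/-- `N` has at most `B` prime factors (with multiplicity), all of them larger than `z`. -/
def AlmostPrime (B : ℕ) (z : ℝ) (N : ℕ) : Prop :=
  N.primeFactorsList.length ≤ B ∧ ∀ p : ℕ, p.Prime → p ∣ N → z < (p : ℝ)

/-- `m` is good: `m ^ 3 + k` has at most `3 r` prime factors, all larger than `X ^ (1 / r)`. -/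
def Good (k : ℤ) (r X m : ℕ) : Prop :=
  AlmostPrime (3 * r) ((X : ℝ) ^ (1 / (r : ℝ))) ((m : ℤ) ^ 3 + k).natAbs

open Classical in
/-- The sieve density: the product of `1 - ρ(p) / p` over the primes `p ≤ X ^ (1 / r)`, where `ρ(p)` is
the number of the `a` mod `p` with `p ∣ a ^ 3 + k`. -/
noncomputable def V (k : ℤ) (r X : ℕ) : ℝ :=
  ∏ p ∈ (Finset.range (⌊(X : ℝ) ^ (1 / (r : ℝ))⌋₊ + 1)).filter Nat.Prime,
    (1 - (((Finset.range p).filter (fun a : ℕ => (p : ℤ) ∣ (a : ℤ) ^ 3 + k)).card : ℝ) / p)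

open Classical in
/-- The number of the good `m` in `(n, n + T]`. -/
noncomputable def N (k : ℤ) (r X T n : ℕ) : ℕ :=
  ((Finset.Ioc n (n + T)).filter (fun m => Good k r X m)).card

/-- The probability of `A` for the Poisson distribution of mean `x`. -/
noncomputable def Poi (x : ℝ) (A : Finset ℕ) : ℝ :=
  ∑ j ∈ A, Real.exp (-x) * x ^ j / j.factorial

open Pool.Agent.TH464.PO Pool.Agent.TH464.PW Pool.Agent.W123.RU Pool.Agent.W123.RU.Poly
open Pool.Agent.H373R2.T7 Pool.Agent.W123.RP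

lemma good_iff (k : ℤ) (r : ℕ) (hr : 1 ≤ r) : ∀ᶠ X : ℕ in atTop, ∀ m : ℕ, m ≤ 3 * X →
    (Sf (Q (fun _ : Fin 1 => cub k)) ⌊(X : ℝ) ^ (1 / (r : ℝ))⌋₊ m ↔ Good k r X m) := by
  filter_upwards [sf_one (cub k) 3 (cub_deg k).le r hr] with X hX m hm
  have h := hX m hm
  rw [cub_eval] at h
  exact h

lemma V_eq (k : ℤ) (r X : ℕ) : Vq (Q (fun _ : Fin 1 => cub k)) ⌊(X : ℝ) ^ (1 / (r : ℝ))⌋₊ = V k r X :=
  V_gen (fun _ : Fin 1 => cub k) (fun p a => (p : ℤ) ∣ (a : ℤ) ^ 3 + k) (fun p m => by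
    rw [Q_one, cub_eval]) _

open Classical in
/-- **The Poisson law, in every short interval.** -/
theorem result (k : ℤ) (hk : ¬ ∃ a : ℤ, k = a ^ 3) (θ : ℝ) (hθ : 0 < θ) (x ε : ℝ) (hε : 0 < ε) :
    ∃ r0 : ℕ, ∀ r : ℕ, r0 ≤ r → ∀ᶠ X : ℕ in atTop, ∀ Y : ℕ, (X : ℝ) ^ θ ≤ Y → Y ≤ X →
      ∀ T : ℕ, T * V k r X ≤ x → ∀ A : Finset ℕ,
        |(((Finset.Ioc X (X + Y)).filter (fun n => N k r X T n ∈ A)).card : ℝ) -
          Y * Poi (T * V k r X) A| ≤ ε * Y :=
  pack_poisson (fun _ : Fin 1 => cub k) (Good k) (V k) (cub_sys k hk) (cub_noTr k) (good_iff k)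
    (V_eq k) θ hθ x ε hε

end Pool.Agent.Results.MP_4d57ea_nt.PoissonLaw
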