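import Pool.Agent.TH977.PW.Inst

set_option autoImplicit false

/-!
# The `m` with `m ^ 3 + k` rough around almost all of them

Let `k` be an integer that is not a cube and let `R k r` be the set of the `m` for which all prime
factors of `m ^ 3 + k` are larger than `m ^ (1 / r)`; it contains all large `m` with `m ^ 3 + k`
prime. In every short interval `(X, X + Y]`, `Y ≥ X ^ θ`, there are at least `κ Y / log X` integers
`m` in `R k r` for which `m ^ 3 + k` has at most `r` prime factors. Let `A` be an ARBITRARY subset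
of `R k r` (these `m`, or the `m` with `m ^ 3 + k` prime). In every short interval all but
`ε Y / log X` of the elements of `A` are regular points of `A`.
-/

namespace Pool.Agent.Results.MP_4d57ea_nt.RegularNeighbours

open Finset Filter
open Pool.Agent.TH977.PW (N Irregular)

/-- All prime factors of `m ^ 3 + k` are larger than `m ^ (1 / r)`. -/
def R (k : ℤ) (r : ℕ) : Set ℕ :=
  {m | ∀ p : ℕ, p.Prime → (p : ℤ) ∣ (m : ℤ) ^ 3 + k → (m : ℝ) ^ (1 / (r : ℝ)) < (p : ℝ)}

open Polynomial in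
/-- the polynomial `X ^ 3 + k` -/
noncomputable def cub (k : ℤ) : ℤ[X] := X ^ 3 + C k

open Polynomial in
lemma cub_eval (k m : ℤ) : (cub k).eval m = m ^ 3 + k := by
  unfold cub
  simp

open Polynomial in
lemma cub_monic (k : ℤ) : (cub k).Monic := monic_X_pow_add_C k (by norm_num)

open Polynomial in
lemma cub_deg (k : ℤ) : (cub k).natDegree = 3 := natDegree_X_pow_add_C

open Polynomial in
lemma cub_irr (k : ℤ) (hk : ¬ ∃ a : ℤ, k = a ^ 3) : Irreducible (cub k) := by
  rw [Polynomial.IsPrimitive.Int.irreducible_iff_irreducible_map_cast (cub_monic k).isPrimitive]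
  have hmap : (cub k).map (Int.castRingHom ℚ) = X ^ 3 + C (k : ℚ) := by
    unfold cub
    simp
  rw [hmap]
  apply Polynomial.irreducible_of_degree_le_three_of_not_isRoot
  · rw [natDegree_X_pow_add_C]
    decide
  · intro x hx
    rw [IsRoot.def] at hx
    simp only [eval_add, eval_pow, eval_X, eval_C] at hx
    have h1 : x ^ 3 = ((-k : ℤ) : ℚ) := by
      push_cast
      linarith
    obtain ⟨y, hy⟩ := IsIntegrallyClosed.exists_algebraMap_eq_of_isIntegral_pow (R := ℤ)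
      (x := x) (n := 3) (by norm_num) (by
        rw [h1]
        exact isIntegral_algebraMap (R := ℤ) (A := ℚ) (x := -k))
    apply hk
    refine ⟨-y, ?_⟩
    have h2 : ((y ^ 3 : ℤ) : ℚ) = ((-k : ℤ) : ℚ) := by
      rw [← h1, ← hy]
      push_cast
      rfl
    have h3 : y ^ 3 = -k := by exact_mod_cast h2
    have : (-y) ^ 3 = -(y ^ 3) := by ring
    rw [this, h3, neg_neg]

/-- **Regular neighbours, `m ^ 3 + k`.** -/
theorem result (k : ℤ) (hk : ¬ ∃ a : ℤ, k = a ^ 3) (θ : ℝ) (hθ : 0 < θ) (hθ1 : θ ≤ 1) :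
    ∃ r₀ : ℕ, 2 ≤ r₀ ∧ ∀ r : ℕ, r₀ ≤ r →
      (∀ᶠ m : ℕ in atTop, ((m : ℤ) ^ 3 + k).natAbs.Prime → m ∈ R k r) ∧
      (∃ κ : ℝ, 0 < κ ∧ ∀ᶠ X : ℕ in atTop, ∀ Y : ℕ, (X : ℝ) ^ θ ≤ Y → Y ≤ X →
        κ * Y / Real.log X ≤ N {m | m ∈ R k r ∧
          ((m : ℤ) ^ 3 + k).natAbs.primeFactorsList.length ≤ r} X (X + Y)) ∧
      ∀ ε : ℝ, 0 < ε → ∃ c : ℝ, 0 < c ∧ ∀ δ : ℝ, 0 < δ → ∃ B : ℕ,
        ∀ᶠ X : ℕ in atTop, ∀ Y : ℕ, (X : ℝ) ^ θ ≤ Y → 2 * Y ≤ X → ∀ A : Set ℕ, A ⊆ R k r →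
          (N (Irregular A 1 c δ B X Y) X (X + Y) : ℝ) ≤ ε * Y / Real.log X := by
  obtain ⟨r0, hr0, h⟩ := Pool.Agent.TH977.PW.final (fun _ : Fin 1 => cub k)
    ⟨fun _ => cub_irr k hk, fun _ => by rw [cub_deg]; norm_num,
      fun _ => by rw [(cub_monic k).leadingCoeff]; norm_num, fun _ _ _ => Subsingleton.elim _ _,
      fun p hp => by
        by_cases h0 : (p : ℤ) ∣ k
        · refine ⟨1, fun _ h1 => ?_⟩
          rw [cub_eval] at h1
          have h2 : (p : ℤ) ∣ ((1 : ℕ) : ℤ) := by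
            have := dvd_sub h1 h0
            have e : (((1 : ℕ) : ℤ)) ^ 3 + k - k = ((1 : ℕ) : ℤ) := by push_cast; ring
            rw [e] at this
            exact this
          exact hp.one_lt.ne' (Nat.dvd_one.1 (Int.natCast_dvd_natCast.1 h2))
        · refine ⟨0, fun _ h1 => h0 ?_⟩
          rw [cub_eval] at h1
          simpa using h1⟩
    (fun r => R k r)
    (fun r => {m | m ∈ R k r ∧ ((m : ℤ) ^ 3 + k).natAbs.primeFactorsList.length ≤ r})
    1 (by rw [Fintype.card_fin])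
    (fun r m _ hm _ p hp hd => hm p hp (by rw [cub_eval] at hd; exact hd))
    (fun r m _ h1 h2 => ⟨fun p hp hd => h1 0 p hp (by rw [cub_eval]; exact hd), by
      have := h2 0
      rw [cub_eval] at this
      exact this⟩) θ hθ hθ1
  refine ⟨r0, hr0, fun r hr => ⟨?_, ?_, ?_⟩⟩
  · filter_upwards [eventually_ge_atTop (k.natAbs + 2)] with t ht hpr q hq hd
    have hqe : q = ((t : ℤ) ^ 3 + k).natAbs :=
      (Nat.prime_dvd_prime_iff_eq hq hpr).1 (Int.natCast_dvd.1 hd)
    rw [hqe]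
    apply Pool.Agent.TH977.PW.rpow_lt_of_le r t _ (hr0.trans hr) (by omega)
    have hT : (k.natAbs : ℤ) + 2 ≤ (t : ℤ) := by exact_mod_cast ht
    have hb : |k| = (k.natAbs : ℤ) := (Int.natCast_natAbs k).symm
    have h1 := neg_abs_le k
    have h3 := abs_nonneg k
    rw [← hb] at hT
    have hT0 : (2 : ℤ) ≤ t := by linarith
    have h5 : (t : ℤ) ≤ (t : ℤ) ^ 3 + k := by
      have e1 : (t : ℤ) ^ 3 = t * t ^ 2 := by ring
      have e2 : (4 : ℤ) ≤ (t : ℤ) ^ 2 := by nlinarith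
      nlinarith
    have h6 : (t : ℤ) ≤ (((t : ℤ) ^ 3 + k).natAbs : ℤ) := h5.trans Int.le_natAbs
    exact_mod_cast h6
  · simpa only [pow_one] using (h r hr).1
  · simpa only [pow_one] using (h r hr).2

end Pool.Agent.Results.MP_4d57ea_nt.RegularNeighbours
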