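import Pool.Agent.TH204.WR.W14

/-!
For every integer polynomial `F` of degree `d ≥ 2` (for instance `F = x³`) and for all but
`X / (log X)^U` of the integers `k` with `|k| ≤ X`, the Bateman-Horn asymptotic formula for the
primes `F(m) + k` holds in all windows `a < m ≤ b` of length at least `(log X)^B` on which the
values are between `2` and `(b - a) X^(1 - 1/d) (log X)^C`. For `F = x³` these are windows at the
real zero `-k^(1/3)`, where the primes are as small as `X^(2/3)` times a power of `log X`.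

Method: for a function `f` with exponential sums at most `Y / (log Y)^A` everywhere (primes minus
their sieve model, `Pool/Agent/H373R2/T7`) the second moment over all shifts `t` of
`∑_{n ≤ N} f(G(n) + t)` is bounded by an inverse theorem for Weyl sums
(`Pool/Agent/H373R2/NB/Weyl`), Fejér kernels on the major arcs and the energy of the divisor
function, for all `Y` from `X^(1 - 1/d) (log X)^B` on. A grid of starting points and of heights
`Y` gives all windows. The model is summed by the fundamental lemma of the sieve, and the tails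
of the local products are small for almost all shifts by a dual large sieve argument.
-/

set_option autoImplicit false

namespace Pool.Agent.Results.MP_4d57ea_nt.WindowsNearCubeRoot

open Finset Filter Topology
open Polynomial (X)
open scoped Polynomial

/-- the number of residues `a` modulo `p` such that `p` divides `F(a) + k` -/
def rho (F : ℤ[X]) (k : ℤ) (p : ℕ) : ℕ := #((range p).filter (fun a : ℕ => (p : ℤ) ∣ F.eval (a : ℤ) + k))

/-- the product of `(p - rho(p)) / (p - 1)` over the primes `p ≤ z` -/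
noncomputable def S (F : ℤ[X]) (k : ℤ) (z : ℕ) : ℝ :=
  ∏ p ∈ (range (z + 1)).filter Nat.Prime, ((p : ℝ) - rho F k p) / ((p : ℝ) - 1)

/-- the number of integers `m` with `a < m ≤ b` such that `F(m) + k` is a prime -/
noncomputable def P (F : ℤ[X]) (k a b : ℤ) : ℕ := #((Ioc a b).filter (fun m : ℤ => Nat.Prime (F.eval m + k).toNat))

/-- the sum of `1 / log (F(m) + k)` over the integers `m` with `a < m ≤ b` -/
noncomputable def M (F : ℤ[X]) (k a b : ℤ) : ℝ := ∑ m ∈ Ioc a b, 1 / Real.log ((F.eval m + k : ℤ) : ℝ)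

lemma rho_eq (F : ℤ[X]) (k : ℤ) (p : ℕ) : rho F k p = Pool.Agent.TH204.WR.rho F k p := rfl

lemma rho_lt (F : ℤ[X]) (k : ℤ) (p : ℕ) (hp : p.Prime) (h : ∃ m : ℤ, ¬ (p : ℤ) ∣ F.eval m + k) :
    Pool.Agent.TH204.WR.rho F k p < p := by
  obtain ⟨m, hm⟩ := h
  have hp0 : (0 : ℤ) < p := by exact_mod_cast hp.pos
  unfold Pool.Agent.TH204.WR.rho
  have hlt : (m % p).toNat < p := by
    have h1 := Int.emod_nonneg m hp0.ne'
    have h2 := Int.emod_lt_of_pos m hp0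
    omega
  have hcast : (((m % p).toNat : ℕ) : ℤ) = m % p := Int.toNat_of_nonneg (Int.emod_nonneg m hp0.ne')
  have hss : (range p).filter (fun a : ℕ => (p : ℤ) ∣ F.eval (a : ℤ) + k) ⊂ range p := by
    rw [filter_ssubset]
    refine ⟨(m % p).toNat, mem_range.2 hlt, ?_⟩
    intro hd
    rw [hcast] at hd
    apply hm
    have h1 : (p : ℤ) ∣ m - m % p := Int.dvd_self_sub_emod
    have h2 : (m - m % p) ∣ F.eval m - F.eval (m % p) := Polynomial.sub_dvd_eval_sub m (m % p) F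
    have h3 := dvd_add (h1.trans h2) hd
    have e : F.eval m - F.eval (m % p) + (F.eval (m % p) + k) = F.eval m + k := by ring
    rwa [e] at h3
  have := card_lt_card hss
  rwa [card_range] at this

lemma S_eq (F : ℤ[X]) (k : ℤ) (z : ℕ) : S F k z = Pool.Agent.TH204.WR.hh F k z := by
  unfold S Pool.Agent.TH204.WR.hh Pool.Agent.H373R2.T7.Vz
  rw [← prod_inv_distrib, ← prod_mul_distrib]
  have hs : (range (z + 1)).filter Nat.Prime = Pool.Agent.H373R2.T7.pz z := by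
    ext p
    unfold Pool.Agent.H373R2.T7.pz
    rw [mem_filter, mem_filter, mem_range, mem_Icc]
    constructor
    · rintro ⟨h1, h2⟩
      exact ⟨⟨h2.one_le, by omega⟩, h2⟩
    · rintro ⟨⟨h1, h3⟩, h2⟩
      exact ⟨by omega, h2⟩
  rw [hs]
  apply prod_congr rfl
  intro p hp
  unfold Pool.Agent.H373R2.T7.pz at hp
  have hp2 := (mem_filter.1 hp).2.two_le
  have hpr : (2 : ℝ) ≤ p := by exact_mod_cast hp2
  have h1 : (p : ℝ) ≠ 0 := by linarith
  have h2 : (p : ℝ) - 1 ≠ 0 := by linarith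
  have h3 : (1 : ℝ) - 1 / p ≠ 0 := by
    rw [one_sub_div h1]
    exact div_ne_zero h2 h1
  rw [rho_eq]
  field_simp

lemma rt_eq (k x : ℕ) (d : ℕ) (hd : d = k + 1) :
    Pool.Agent.TH204.WR.rt k x ^ k = (x : ℝ) ^ (1 - 1 / (d : ℝ)) := by
  unfold Pool.Agent.TH204.WR.rt
  rw [← Real.rpow_natCast, ← Real.rpow_mul (Nat.cast_nonneg _)]
  congr 1
  rw [hd]
  push_cast
  have : (k : ℝ) + 1 ≠ 0 := by positivity
  field_simp
  ring

/-- the general statement -/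
theorem main (F : ℤ[X]) (hF : 2 ≤ F.natDegree) (U C : ℕ) (ε : ℝ) (hε : 0 < ε) : ∃ B X₀ : ℕ, ∀ N : ℕ, X₀ ≤ N →
    ∃ Bad ⊆ Icc (-(N : ℤ)) N, (#Bad : ℝ) ≤ N / Real.log N ^ U ∧
    ∀ k ∈ Icc (-(N : ℤ)) N, k ∉ Bad → (∀ p : ℕ, p.Prime → ∃ m : ℤ, ¬ (p : ℤ) ∣ F.eval m + k) →
    ∀ z : ℕ, Real.log N ^ B ≤ z → z ^ 3 ≤ N → 0 < S F k z ∧
    ∀ a b : ℤ, a < b → (∀ m ∈ Ioc a b, 2 ≤ F.eval m + k ∧ ((F.eval m + k : ℤ) : ℝ) ≤
        ((b : ℝ) - a) * (N : ℝ) ^ (1 - 1 / (F.natDegree : ℝ)) * Real.log N ^ C) →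
      (Real.log N ^ B ≤ (b : ℝ) - a →
        |(P F k a b : ℝ) - S F k z * M F k a b| ≤ ε * (S F k z * M F k a b)) ∧
      (Real.exp (B * Real.log (Real.log N) ^ 2) ≤ (b : ℝ) - a →
        |(P F k a b : ℝ) - S F k z * M F k a b| ≤ (S F k z * M F k a b) / Real.log N ^ U) := by
  obtain ⟨κ, hκ⟩ : ∃ κ, F.natDegree = κ + 1 := ⟨F.natDegree - 1, by omega⟩
  obtain ⟨B, X₀, h0⟩ := Pool.Agent.TH204.WR.both κ (by omega) F hκ U C ε hε
  refine ⟨B, X₀, fun N hN => ?_⟩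
  obtain ⟨Bad, hB1, hB2, hB3⟩ := h0 N hN
  refine ⟨Bad, hB1, hB2, fun k hk hkB hadm z hz hz3 => ?_⟩
  obtain ⟨h1, h2⟩ := hB3 k hk hkB (fun p hp => rho_lt F k p hp (hadm p hp)) z hz hz3
  rw [S_eq]
  refine ⟨h1, fun a b hab hv => ?_⟩
  have hP : P F k a b = #((Ioc a b).filter (fun m => (F.eval m + k).natAbs.Prime)) := by
    unfold P
    congr 1
    apply filter_congr
    intro m hm
    have h3 := (hv m hm).1
    have h4 : (F.eval m + k).toNat = (F.eval m + k).natAbs := by omega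
    rw [h4]
  have hM : M F k a b = ∑ m ∈ Ioc a b, Pool.Agent.TH892.SW.wt (F.eval m + k).natAbs := by
    unfold M Pool.Agent.TH892.SW.wt
    apply sum_congr rfl
    intro m hm
    have h3 := (hv m hm).1
    have h4 : (((F.eval m + k).natAbs : ℕ) : ℤ) = F.eval m + k := by omega
    have h5 : (((F.eval m + k).natAbs : ℕ) : ℝ) = ((F.eval m + k : ℤ) : ℝ) := by
      rw [← h4]
      simp
    rw [h5]
  rw [hP, hM]
  apply h2 a b hab
  intro m hm
  refine ⟨(hv m hm).1, ?_⟩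
  have h3 := (hv m hm).2
  rw [rt_eq κ N F.natDegree hκ, ← mul_assoc]
  exact h3

/-- no local obstruction for cubes -/
lemma cube_adm (k : ℤ) (p : ℕ) (hp : p.Prime) : ∃ m : ℤ, ¬ (p : ℤ) ∣ (X ^ 3 : ℤ[X]).eval m + k := by
  by_cases h : (p : ℤ) ∣ k
  · refine ⟨1, fun hc => ?_⟩
    rw [Polynomial.eval_pow, Polynomial.eval_X, one_pow] at hc
    have h1 : (p : ℤ) ∣ 1 := by
      have := dvd_sub hc h
      rwa [add_sub_cancel_right] at this
    have h2 : (p : ℤ) = 1 := by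
      have := Int.le_of_dvd (by norm_num) h1
      have := hp.two_le
      omega
    have := hp.two_le
    omega
  · refine ⟨0, fun hc => h ?_⟩
    rw [Polynomial.eval_pow, Polynomial.eval_X] at hc
    simpa using hc

/-- the least prime `m³ + k` -/
theorem least (U : ℕ) : ∃ B X₀ : ℕ, ∀ N : ℕ, X₀ ≤ N →
    ∃ Bad ⊆ Icc (-(N : ℤ)) N, (#Bad : ℝ) ≤ N / Real.log N ^ U ∧
    ∀ k ∈ Icc (-(N : ℤ)) N, k ∉ Bad → ∃ (m : ℤ) (p : ℕ), p.Prime ∧ (p : ℤ) = m ^ 3 + k ∧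
      (p : ℝ) ≤ (N : ℝ) ^ ((2 : ℝ) / 3) * Real.log N ^ B := by
  have hdeg : (X ^ 3 : ℤ[X]).natDegree = 3 := by rw [Polynomial.natDegree_X_pow]
  obtain ⟨B, X₀, h0⟩ := main (X ^ 3) (by rw [hdeg]; norm_num) U 1 (1 / 2) (by norm_num)
  have hev : ∀ᶠ x : ℕ in atTop, (100 : ℝ) ≤ Real.log x ∧
      Real.log x ^ (B + 2) ≤ (x : ℝ) ^ ((1 : ℝ) / 3) := by
    filter_upwards [Pool.Agent.TH204.WR.evt_log_ge 100,
      Pool.Agent.TH204.WR.evt_log_pow (B + 2) ((1 : ℝ) / 3) (by positivity)] with x h1 h2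
    exact ⟨h1, h2⟩
  obtain ⟨X₁, hX₁⟩ := eventually_atTop.1 hev
  refine ⟨B + 2, max X₀ (max X₁ 1), fun N hN => ?_⟩
  obtain ⟨Bad, hB1, hB2, hB3⟩ := h0 N ((le_max_left _ _).trans hN)
  obtain ⟨hL, hLS⟩ := hX₁ N (le_trans (le_trans (le_max_left _ _) (le_max_right _ _)) hN)
  have hN1 : 1 ≤ N := le_trans (le_trans (le_max_right _ _) (le_max_right _ _)) hN
  have hNr : (0 : ℝ) ≤ N := Nat.cast_nonneg _
  refine ⟨Bad, hB1, hB2, fun k hk hkB => ?_⟩
  obtain ⟨R, hR⟩ : ∃ R : ℝ, R = (N : ℝ) ^ ((1 : ℝ) / 3) := ⟨_, rfl⟩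
  have hR3 : R ^ 3 = N := by
    rw [hR, ← Real.rpow_natCast, ← Real.rpow_mul hNr]
    norm_num
  have hR2 : R ^ 2 = (N : ℝ) ^ ((2 : ℝ) / 3) := by
    rw [hR, ← Real.rpow_natCast, ← Real.rpow_mul hNr]
    norm_num
  rw [← hR] at hLS
  rw [← hR2]
  have hkabs := hk
  rw [mem_Icc] at hkabs
  generalize hLd : Real.log N = L at *
  have hL0 : 0 < L := by linarith
  have hL1 : 1 ≤ L := by linarith
  have hB0 : 1 ≤ L ^ B := one_le_pow₀ hL1
  obtain ⟨H, hH⟩ : ∃ H : ℕ, H = ⌈L ^ B⌉₊ := ⟨_, rfl⟩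
  have hH1 : L ^ B ≤ H := by rw [hH]; exact Nat.le_ceil _
  have hH2 : (H : ℝ) ≤ 2 * L ^ B := by
    have := Nat.ceil_lt_add_one (show 0 ≤ L ^ B by positivity)
    rw [← hH] at this
    linarith
  have hH0 : (1 : ℝ) ≤ H := hB0.trans hH1
  have hHR : (H : ℝ) ≤ R := by
    refine le_trans ?_ hLS
    calc (H : ℝ) ≤ 2 * L ^ B := hH2
      _ ≤ L ^ 2 * L ^ B := mul_le_mul_of_nonneg_right (by nlinarith) (by positivity)
      _ = L ^ (B + 2) := by ring
  have hR1 : 1 ≤ R := hH0.trans hHR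
  have hz3 : H ^ 3 ≤ N := by
    have : (H : ℝ) ^ 3 ≤ N := by
      rw [← hR3]
      exact pow_le_pow_left₀ (by linarith) hHR 3
    exact_mod_cast this
  obtain ⟨hS, hwin⟩ := hB3 k hk hkB (cube_adm k) H hH1 hz3
  have hevl : ∀ m : ℤ, (X ^ 3 : ℤ[X]).eval m = m ^ 3 := by
    intro m
    rw [Polynomial.eval_pow, Polynomial.eval_X]
  -- the first argument with a value at least 2
  obtain ⟨a, ha1, ha2⟩ : ∃ a : ℤ, a ^ 3 + k ≤ 1 ∧ ∀ m : ℤ, a < m → 2 ≤ m ^ 3 + k := by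
    have hinh : ∃ m : ℤ, m ^ 3 + k ≤ 1 := ⟨-(N : ℤ), by
      have h1 : (1 : ℤ) ≤ N := by exact_mod_cast hN1
      have h2 : (N : ℤ) ≤ (N : ℤ) ^ 3 := le_self_pow₀ h1 (by norm_num)
      have h3 : (-(N : ℤ)) ^ 3 = -(N : ℤ) ^ 3 := by ring
      rw [h3]
      linarith [hkabs.2]⟩
    have hbd : ∃ b : ℤ, ∀ m : ℤ, m ^ 3 + k ≤ 1 → m ≤ b := ⟨(N : ℤ) + 1, by
      intro m hm
      by_contra hc
      push Not at hc
      have h1 : (1 : ℤ) ≤ N := by exact_mod_cast hN1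
      have h2 : m ≤ m ^ 3 := le_self_pow₀ (by linarith) (by norm_num)
      linarith [hkabs.1]⟩
    obtain ⟨a, ha1, ha2⟩ := Int.exists_greatest_of_bdd hbd hinh
    refine ⟨a, ha1, fun m hm => ?_⟩
    by_contra hc
    push Not at hc
    have := ha2 m (by linarith)
    omega
  have haR1 : (a : ℝ) ≤ R + 1 := by
    by_contra hc
    push Not at hc
    have h1 : (R + 1) ^ 3 ≤ (a : ℝ) ^ 3 := pow_le_pow_left₀ (by linarith) hc.le 3
    have h2 : ((a : ℝ)) ^ 3 + k ≤ 1 := by exact_mod_cast ha1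
    have h3 : -(N : ℝ) ≤ k := by exact_mod_cast hkabs.1
    nlinarith
  have haR2 : -(R + 1) ≤ (a : ℝ) := by
    by_contra hc
    push Not at hc
    have h1 : R ^ 3 ≤ (-((a : ℝ) + 1)) ^ 3 := pow_le_pow_left₀ (by linarith) (by linarith) 3
    have h2 : (2 : ℝ) ≤ ((a : ℝ) + 1) ^ 3 + k := by exact_mod_cast ha2 (a + 1) (by linarith)
    have h3 : (k : ℝ) ≤ N := by exact_mod_cast hkabs.2
    have h4 : (-((a : ℝ) + 1)) ^ 3 = -((a : ℝ) + 1) ^ 3 := by ring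
    rw [h4] at h1
    linarith
  have hval : ∀ m ∈ Ioc a (a + H), 2 ≤ m ^ 3 + k ∧ ((m ^ 3 + k : ℤ) : ℝ) ≤ 20 * (H * R ^ 2) := by
    intro m hm
    rw [mem_Ioc] at hm
    refine ⟨ha2 m hm.1, ?_⟩
    have h1 : (m : ℝ) - a ≤ H := by
      have : (m : ℝ) ≤ a + H := by exact_mod_cast hm.2
      linarith
    have h2 : (0 : ℝ) ≤ (m : ℝ) - a := by
      have : (a : ℝ) < m := by exact_mod_cast hm.1
      linarith
    have h3 : ((a : ℝ)) ^ 3 + k ≤ 1 := by exact_mod_cast ha1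
    obtain ⟨j, hj⟩ : ∃ j : ℝ, j = (m : ℝ) - a := ⟨_, rfl⟩
    rw [← hj] at h1 h2
    have hm' : (m : ℝ) = a + j := by rw [hj]; ring
    push_cast
    rw [hm']
    have e : ((a : ℝ) + j) ^ 3 + k = j * (3 * (a : ℝ) ^ 2 + 3 * a * j + j ^ 2) + ((a : ℝ) ^ 3 + k) := by ring
    rw [e]
    have ha' : |(a : ℝ)| ≤ 2 * R := abs_le.2 ⟨by linarith, by linarith⟩
    have ha2' : (a : ℝ) ^ 2 ≤ 4 * R ^ 2 := by
      rw [← sq_abs]
      calc |(a : ℝ)| ^ 2 ≤ (2 * R) ^ 2 := pow_le_pow_left₀ (abs_nonneg _) ha' 2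
        _ = 4 * R ^ 2 := by ring
    have hjR : j ≤ R := h1.trans hHR
    have haj : (a : ℝ) * j ≤ 2 * R ^ 2 := by
      calc (a : ℝ) * j ≤ |(a : ℝ)| * j := mul_le_mul_of_nonneg_right (le_abs_self _) h2
        _ ≤ 2 * R * R := mul_le_mul ha' hjR h2 (by linarith)
        _ = 2 * R ^ 2 := by ring
    have hj2 : j ^ 2 ≤ R ^ 2 := pow_le_pow_left₀ h2 hjR 2
    have h4 : 3 * (a : ℝ) ^ 2 + 3 * a * j + j ^ 2 ≤ 19 * R ^ 2 := by nlinarith
    have h5 : j * (3 * (a : ℝ) ^ 2 + 3 * a * j + j ^ 2) ≤ H * (19 * R ^ 2) := by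
      have h6 : j * (3 * (a : ℝ) ^ 2 + 3 * a * j + j ^ 2) ≤ j * (19 * R ^ 2) := mul_le_mul_of_nonneg_left h4 h2
      have h7 : j * (19 * R ^ 2) ≤ H * (19 * R ^ 2) := mul_le_mul_of_nonneg_right h1 (by positivity)
      linarith
    have h6 : (1 : ℝ) ≤ H * R ^ 2 := one_le_mul_of_one_le_of_one_le hH0 (one_le_pow₀ hR1)
    linarith
  have hHz : (0 : ℤ) < H := by
    have : (0 : ℝ) < H := by linarith
    exact_mod_cast this
  have hab : a < a + (H : ℤ) := by linarith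
  have hlen : (((a + (H : ℤ) : ℤ) : ℝ)) - a = H := by push_cast; ring
  have hRr : (N : ℝ) ^ (1 - 1 / (((X ^ 3 : ℤ[X]).natDegree : ℕ) : ℝ)) = R ^ 2 := by
    rw [hR2, hdeg]
    norm_num
  have hw := (hwin a (a + H) hab (by
    intro m hm
    obtain ⟨h1, h2⟩ := hval m hm
    rw [hevl, hlen, hRr]
    refine ⟨h1, h2.trans ?_⟩
    rw [pow_one]
    have h3 : (0 : ℝ) ≤ H * R ^ 2 := by positivity
    calc 20 * (H * R ^ 2) = H * R ^ 2 * 20 := by ring
      _ ≤ H * R ^ 2 * L := mul_le_mul_of_nonneg_left (by linarith) h3)).1 (by rw [hlen]; exact hH1)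
  have hM : 0 < M (X ^ 3) k a (a + H) := by
    unfold M
    apply sum_pos
    · intro m hm
      have h1 := (hval m hm).1
      rw [hevl]
      have h2 : (2 : ℝ) ≤ ((m ^ 3 + k : ℤ) : ℝ) := by exact_mod_cast h1
      exact one_div_pos.2 (Real.log_pos (by linarith))
    · exact ⟨a + H, mem_Ioc.2 ⟨hab, le_rfl⟩⟩
  have hSM : 0 < S (X ^ 3) k H * M (X ^ 3) k a (a + H) := mul_pos hS hM
  have hP : 0 < P (X ^ 3) k a (a + H) := by
    have h1 := (abs_le.1 hw).1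
    have h2 : (0 : ℝ) < P (X ^ 3) k a (a + H) := by linarith
    exact_mod_cast h2
  unfold P at hP
  obtain ⟨m, hm⟩ := card_pos.1 hP
  rw [mem_filter, hevl] at hm
  obtain ⟨hm1, hm2⟩ := hm
  obtain ⟨h1, h2⟩ := hval m hm1
  have hcast : (((m ^ 3 + k).toNat : ℕ) : ℤ) = m ^ 3 + k := Int.toNat_of_nonneg (by linarith)
  refine ⟨m, (m ^ 3 + k).toNat, hm2, hcast, ?_⟩
  have h3 : (((m ^ 3 + k).toNat : ℕ) : ℝ) = ((m ^ 3 + k : ℤ) : ℝ) := by exact_mod_cast hcast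
  rw [h3]
  refine h2.trans ?_
  calc 20 * (H * R ^ 2) ≤ 20 * (2 * L ^ B * R ^ 2) := by
        apply mul_le_mul_of_nonneg_left _ (by norm_num)
        exact mul_le_mul_of_nonneg_right hH2 (by positivity)
    _ = R ^ 2 * (40 * L ^ B) := by ring
    _ ≤ R ^ 2 * (L ^ 2 * L ^ B) := by
        apply mul_le_mul_of_nonneg_left _ (by positivity)
        exact mul_le_mul_of_nonneg_right (by nlinarith) (by positivity)
    _ = R ^ 2 * L ^ (B + 2) := by ring

/-- **Primes `F(m) + k` in very short windows for almost all `k`.** For every integer polynomial `F`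
of degree `d ≥ 2`, all `U`, `C` and `ε > 0` there are `B` and `X₀` such that for all `N ≥ X₀` all
but at most `N / (log N)^U` of the integers `|k| ≤ N` have the following property. If `F + k` has
no local obstruction, then for all `z` with `(log N)^B ≤ z ≤ N^(1/3)` the product `S(z)` of
`(p - rho(p)) / (p - 1)` over `p ≤ z` is positive, and for ALL windows `a < m ≤ b` on which
`2 ≤ F(m) + k ≤ (b - a) N^(1 - 1/d) (log N)^C` the number of `m` with `F(m) + k` prime is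
`S(z) ∑ 1 / log (F(m) + k)` up to a relative error
* `ε`, if `b - a ≥ (log N)^B`;
* `(log N)^(-U)`, if `b - a ≥ exp(B (log log N)²)`.

In particular (`F = x³`, where there is no local obstruction) for all but at most `N / (log N)^U`
of the integers `|k| ≤ N` the least prime of the form `m³ + k` is at most `N^(2/3) (log N)^B`. -/
theorem result :
    (∀ F : ℤ[X], 2 ≤ F.natDegree → ∀ (U C : ℕ) (ε : ℝ), 0 < ε → ∃ B X₀ : ℕ, ∀ N : ℕ, X₀ ≤ N →
      ∃ Bad ⊆ Icc (-(N : ℤ)) N, (#Bad : ℝ) ≤ N / Real.log N ^ U ∧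
      ∀ k ∈ Icc (-(N : ℤ)) N, k ∉ Bad → (∀ p : ℕ, p.Prime → ∃ m : ℤ, ¬ (p : ℤ) ∣ F.eval m + k) →
      ∀ z : ℕ, Real.log N ^ B ≤ z → z ^ 3 ≤ N → 0 < S F k z ∧
      ∀ a b : ℤ, a < b → (∀ m ∈ Ioc a b, 2 ≤ F.eval m + k ∧ ((F.eval m + k : ℤ) : ℝ) ≤
          ((b : ℝ) - a) * (N : ℝ) ^ (1 - 1 / (F.natDegree : ℝ)) * Real.log N ^ C) →
        (Real.log N ^ B ≤ (b : ℝ) - a →
          |(P F k a b : ℝ) - S F k z * M F k a b| ≤ ε * (S F k z * M F k a b)) ∧
        (Real.exp (B * Real.log (Real.log N) ^ 2) ≤ (b : ℝ) - a →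
          |(P F k a b : ℝ) - S F k z * M F k a b| ≤ (S F k z * M F k a b) / Real.log N ^ U)) ∧
    (∀ U : ℕ, ∃ B X₀ : ℕ, ∀ N : ℕ, X₀ ≤ N →
      ∃ Bad ⊆ Icc (-(N : ℤ)) N, (#Bad : ℝ) ≤ N / Real.log N ^ U ∧
      ∀ k ∈ Icc (-(N : ℤ)) N, k ∉ Bad → ∃ (m : ℤ) (p : ℕ), p.Prime ∧ (p : ℤ) = m ^ 3 + k ∧
        (p : ℝ) ≤ (N : ℝ) ^ ((2 : ℝ) / 3) * Real.log N ^ B) :=
  ⟨fun F hF U C ε hε => main F hF U C ε hε, least⟩

end Pool.Agent.Results.MP_4d57ea_nt.WindowsNearCubeRoot
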